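import Mathlib
import Pool.Agent.H47.Sid.Core

set_option autoImplicit false

namespace Pool.Agent.Results.MP_fc31a2_co.Code85

open Pool.Agent.H47.Sid

/-- There is a binary linear `[85, 72, 5]` code. -/
theorem result : ∃ C : Submodule (ZMod 2) (Fin 85 → ZMod 2),
    Module.finrank (ZMod 2) C = 72 ∧ (∀ x ∈ C, x ≠ 0 → 5 ≤ hammingNorm x) ∧
      ∃ x ∈ C, hammingNorm x = 5 :=
  ⟨LinearMap.ker par, finrank_ker, fun x hx hne => dist x (LinearMap.mem_ker.1 hx) hne,
    word, LinearMap.mem_ker.2 word_mem, word_norm⟩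

end Pool.Agent.Results.MP_fc31a2_co.Code85
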